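import Mathlib

/-!
# Edge numbers of edge-maximal minor-free graphs

For the set consisting of the path with four vertices and the claw, a graph is free exactly if all
its components have at most three vertices; the edge-maximal ones are disjoint unions of cliques with
three or two vertices, or of triangles and one isolated vertex. The number of edges then
is fixed modulo three apart from one value.
-/

set_option autoImplicit false

namespace Pool.Agent.Results.MP_4dddeb_co.EdgeNumberGaps

open SimpleGraph Finset Filter Topology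

/-- `H` is a minor of `G`: there are pairwise disjoint connected branch sets such that each edge of
`H` is realised by an edge of `G` between the branch sets. -/
def IsMinor {m n : ℕ} (H : SimpleGraph (Fin m)) (G : SimpleGraph (Fin n)) : Prop :=
  ∃ B : Fin m → Set (Fin n), (∀ i, (G.induce (B i)).Connected) ∧
    (∀ i j, i ≠ j → Disjoint (B i) (B j)) ∧ ∀ i j, H.Adj i j → ∃ a ∈ B i, ∃ b ∈ B j, G.Adj a b

/-- finite graphs, up to isomorphism. -/
abbrev FinGraph : Type := Σ m : ℕ, SimpleGraph (Fin m)

/-- `G` has no minor in `S`. -/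
def Free (S : Set FinGraph) {n : ℕ} (G : SimpleGraph (Fin n)) : Prop :=
  ∀ H ∈ S, ¬ IsMinor H.2 G

/-- `G` is edge-maximal `S`-free. -/
def EdgeMax (S : Set FinGraph) {n : ℕ} (G : SimpleGraph (Fin n)) : Prop :=
  Free S G ∧ ∀ a b, a ≠ b → ¬ G.Adj a b → ¬ Free S (G ⊔ edge a b)

/-- suitable sets of graphs: nonempty, and each member has an edge. -/
def Suitable (S : Set FinGraph) : Prop := S.Nonempty ∧ ∀ H ∈ S, ∃ a b, H.2.Adj a b

/-- the set of edge numbers of edge-maximal `S`-free graphs with `n` vertices. -/
def E (S : Set FinGraph) (n : ℕ) : Set ℕ :=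
  {e | ∃ G : SimpleGraph (Fin n), EdgeMax S G ∧ G.edgeSet.ncard = e}

/-- the gap: the largest minus the smallest element of `E S n`. -/
noncomputable def gap (S : Set FinGraph) (n : ℕ) : ℝ := (sSup (E S n) : ℕ) - (sInf (E S n) : ℕ)

/-- the class is linearly impure: the lower limit of `gap n / n` is positive. -/
def LinearlyImpure (S : Set FinGraph) : Prop :=
  ∃ c : ℝ, 0 < c ∧ ∀ᶠ n : ℕ in atTop, c ≤ gap S n / n

/-- the claw. -/
def claw : SimpleGraph (Fin 4) := SimpleGraph.fromRel (fun i _ => i = 0)

/-- the set consisting of the four-vertex path and the claw. -/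
def PC : Set FinGraph := {⟨4, pathGraph 4⟩, ⟨4, claw⟩}

theorem suitable_PC : Suitable PC := by
  refine ⟨⟨_, Or.inl rfl⟩, ?_⟩
  rintro H (rfl | rfl)
  · exact ⟨0, 1, by simp [pathGraph_adj]⟩
  · exact ⟨0, 1, by simp [claw]⟩

theorem isMinor_of_map {m n : ℕ} {H : SimpleGraph (Fin m)} {G : SimpleGraph (Fin n)}
    (f : Fin m → Fin n) (hf : Function.Injective f) (h : ∀ i j, H.Adj i j → G.Adj (f i) (f j)) :
    IsMinor H G := by
  refine ⟨fun i => {f i}, ?_, ?_, ?_⟩
  · intro i
    have hs : Subsingleton (({f i} : Set (Fin n)) : Type) := by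
      constructor
      rintro ⟨a, ha⟩ ⟨b, hb⟩
      exact Subtype.ext (ha.trans hb.symm)
    have : Nonempty (({f i} : Set (Fin n)) : Type) := ⟨⟨f i, rfl⟩⟩
    exact ⟨fun a b => by rw [Subsingleton.elim a b]⟩
  · intro i j hij
    rw [Set.disjoint_singleton]
    exact fun h => hij (hf h)
  · intro i j hij
    exact ⟨f i, rfl, f j, rfl, h i j hij⟩

section free

variable {n : ℕ} {G : SimpleGraph (Fin n)}

theorem no_path (h : Free PC G) {a b c d : Fin n} (hab : G.Adj a b) (hbc : G.Adj b c)
    (hcd : G.Adj c d) (hac : a ≠ c) (had : a ≠ d) (hbd : b ≠ d) : False := by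
  apply h ⟨4, pathGraph 4⟩ (Or.inl rfl)
  apply isMinor_of_map ![a, b, c, d]
  · intro i j hij
    have h1 := hab.ne
    have h2 := hbc.ne
    have h3 := hcd.ne
    fin_cases i <;> fin_cases j <;> simp at hij <;> first | rfl | exact absurd hij (by assumption) | exact absurd hij.symm (by assumption)
  · intro i j hij
    rw [pathGraph_adj] at hij
    fin_cases i <;> fin_cases j <;> simp at hij <;>
      first | exact hab | exact hab.symm | exact hbc | exact hbc.symm | exact hcd | exact hcd.symm

theorem no_claw (h : Free PC G) {a b c d : Fin n} (hab : G.Adj a b) (hac : G.Adj a c)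
    (had : G.Adj a d) (hbc : b ≠ c) (hbd : b ≠ d) (hcd : c ≠ d) : False := by
  apply h ⟨4, claw⟩ (Or.inr rfl)
  apply isMinor_of_map ![a, b, c, d]
  · intro i j hij
    have h1 := hab.ne
    have h2 := hac.ne
    have h3 := had.ne
    fin_cases i <;> fin_cases j <;> simp at hij <;> first | rfl | exact absurd hij (by assumption) | exact absurd hij.symm (by assumption)
  · intro i j hij
    fin_cases i <;> fin_cases j <;> simp [claw] at hij <;>
      first | exact hab | exact hab.symm | exact hac | exact hac.symm | exact had | exact had.symm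

/-- a set closed under adjacency contains the vertices reachable from its vertices. -/
theorem reach_closed {A : Finset (Fin n)} (hA : ∀ x ∈ A, ∀ y, G.Adj x y → y ∈ A) {v w : Fin n}
    (hv : v ∈ A) (hw : G.Reachable v w) : w ∈ A := by
  obtain ⟨p⟩ := hw
  induction p with
  | nil => exact hv
  | cons hadj _ ih => exact ih (hA _ hv _ hadj)

theorem closed_P3 (h : Free PC G) {x y z : Fin n} (hxy : G.Adj x y) (hyz : G.Adj y z)
    (hxz : x ≠ z) : ∀ u ∈ ({x, y, z} : Finset (Fin n)), ∀ w, G.Adj u w →
      w ∈ ({x, y, z} : Finset (Fin n)) := by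
  intro u hu w hw
  by_contra hcon
  simp only [Finset.mem_insert, Finset.mem_singleton, not_or] at hu hcon
  obtain ⟨c1, c2, c3⟩ := hcon
  rcases hu with rfl | rfl | rfl
  · exact no_path h hw.symm hxy hyz c2 c3 hxz
  · exact no_claw h hxy.symm hyz hw hxz (Ne.symm c1) (Ne.symm c3)
  · exact no_path h hxy hyz hw hxz (Ne.symm c1) (Ne.symm c2)

theorem exists_closed (h : Free PC G) (v : Fin n) :
    ∃ A : Finset (Fin n), A.card ≤ 3 ∧ v ∈ A ∧ ∀ x ∈ A, ∀ y, G.Adj x y → y ∈ A := by
  by_cases h0 : ∃ b, G.Adj v b
  · obtain ⟨b, hb⟩ := h0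
    by_cases h1 : ∃ c, c ≠ v ∧ G.Adj b c
    · obtain ⟨c, hc, hbc⟩ := h1
      exact ⟨{v, b, c}, Finset.card_le_three, by simp, closed_P3 h hb hbc hc.symm⟩
    · by_cases h2 : ∃ c, c ≠ b ∧ G.Adj v c
      · obtain ⟨c, hc, hvc⟩ := h2
        exact ⟨{b, v, c}, Finset.card_le_three, by simp, closed_P3 h hb.symm hvc hc.symm⟩
      · push Not at h1 h2
        refine ⟨{v, b}, Finset.card_le_two.trans (by norm_num), by simp, ?_⟩
        intro x hx y hxy
        simp only [Finset.mem_insert, Finset.mem_singleton] at hx ⊢
        rcases hx with rfl | rfl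
        · right
          by_contra hne
          exact h2 y hne hxy
        · left
          by_contra hne
          exact h1 y hne hxy
  · push Not at h0
    refine ⟨{v}, by simp, by simp, ?_⟩
    intro x hx y hxy
    rw [Finset.mem_singleton] at hx
    rw [hx] at hxy
    exact absurd hxy (h0 y)

/-- a connected set lies in one fibre of a map that is constant along edges. -/
theorem conn_const {ι : Type} {κ : Fin n → ι} (hκ : ∀ a b, G.Adj a b → κ a = κ b)
    {D : Set (Fin n)} (hD : (G.induce D).Connected) {a b : Fin n} (ha : a ∈ D) (hb : b ∈ D) :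
    κ a = κ b := by
  obtain ⟨w⟩ := hD.preconnected ⟨a, ha⟩ ⟨b, hb⟩
  have key : ∀ (x y : D) (w : (G.induce D).Walk x y), κ x.1 = κ y.1 := by
    intro x y w
    induction w with
    | nil => rfl
    | cons hadj _ ih => exact (hκ _ _ hadj).trans ih
  exact key _ _ w

theorem free_of_small {ι : Type} [DecidableEq ι] (κ : Fin n → ι)
    (hκ : ∀ a b, G.Adj a b → κ a = κ b)
    (hs : ∀ v, (univ.filter (fun w => κ w = κ v)).card ≤ 3) : Free PC G := by
  have key : ∀ H : SimpleGraph (Fin 4), (∀ i : Fin 4, H.Reachable 0 i) → ¬ IsMinor H G := by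
    rintro H hH ⟨B, hB1, hB2, hB3⟩
    have hne : ∀ i, ∃ x, x ∈ B i := fun i => by
      obtain ⟨⟨x, hx⟩⟩ := (hB1 i).nonempty
      exact ⟨x, hx⟩
    choose f hf using hne
    have hadj : ∀ i j, H.Adj i j → κ (f i) = κ (f j) := by
      intro i j hij
      obtain ⟨a, ha, b, hb, hab⟩ := hB3 i j hij
      rw [conn_const hκ (hB1 i) (hf i) ha, hκ a b hab, conn_const hκ (hB1 j) hb (hf j)]
    have hall : ∀ i, κ (f i) = κ (f 0) := by
      intro i
      obtain ⟨p⟩ := hH i
      have key2 : ∀ (x y : Fin 4) (w : H.Walk x y), κ (f y) = κ (f x) := by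
        intro x y w
        induction w with
        | nil => rfl
        | cons h _ ih => exact ih.trans (hadj _ _ h).symm
      exact key2 _ _ p
    have hfi : Function.Injective f := by
      intro i j hij
      by_contra hne
      exact Set.disjoint_left.1 (hB2 i j hne) (hf i) (hij ▸ hf j)
    have h1 : (univ.image f).card = 4 := by
      rw [card_image_of_injective _ hfi]
      simp
    have h2 : (univ.image f) ⊆ univ.filter (fun w => κ w = κ (f 0)) := by
      intro x hx
      obtain ⟨i, _, rfl⟩ := mem_image.1 hx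
      exact mem_filter.2 ⟨mem_univ _, hall i⟩
    have h3 := card_le_card h2
    have h4 := hs (f 0)
    omega
  rintro H (rfl | rfl)
  · apply key
    intro i
    have e1 : (pathGraph 4).Adj 0 1 := by simp [pathGraph_adj]
    have e2 : (pathGraph 4).Adj 1 2 := by simp [pathGraph_adj]
    have e3 : (pathGraph 4).Adj 2 3 := by simp [pathGraph_adj]
    fin_cases i
    · exact Reachable.refl _
    · exact e1.reachable
    · exact e1.reachable.trans e2.reachable
    · exact (e1.reachable.trans e2.reachable).trans e3.reachable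
  · apply key
    intro i
    by_cases hi : i = 0
    · rw [hi]
    · apply Adj.reachable
      simp [claw, Ne.symm hi]

end free

/-- the disjoint union of cliques on the fibres of `κ`. -/
def cl {n : ℕ} {ι : Type} (κ : Fin n → ι) : SimpleGraph (Fin n) where
  Adj a b := a ≠ b ∧ κ a = κ b
  symm := ⟨fun _ _ h => ⟨h.1.symm, h.2.symm⟩⟩
  loopless := ⟨fun _ h => h.1 rfl⟩

theorem edgeMax_cl {n : ℕ} {ι : Type} [DecidableEq ι] (κ : Fin n → ι)
    (hs : ∀ v, (univ.filter (fun w => κ w = κ v)).card ≤ 3)
    (hb : ∀ a b, κ a ≠ κ b → 4 ≤ (univ.filter (fun w => κ w = κ a)).card +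
      (univ.filter (fun w => κ w = κ b)).card) : EdgeMax PC (cl κ) := by
  refine ⟨free_of_small κ (fun a b h => h.2) hs, ?_⟩
  intro a b hab hadj hfree
  have hκ : κ a ≠ κ b := fun h => hadj ⟨hab, h⟩
  obtain ⟨A, hA1, hA2, hA3⟩ := exists_closed hfree a
  have hbA : b ∈ A := by
    apply hA3 a hA2
    rw [sup_adj, edge_adj]
    exact Or.inr ⟨Or.inl ⟨rfl, rfl⟩, hab⟩
  have hsub : (univ.filter (fun w => κ w = κ a)) ∪ (univ.filter (fun w => κ w = κ b)) ⊆ A := by
    intro w hw
    rw [mem_union, mem_filter, mem_filter] at hw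
    rcases hw with ⟨_, hw⟩ | ⟨_, hw⟩
    · by_cases hwa : w = a
      · rwa [hwa]
      · apply hA3 a hA2
        rw [sup_adj]
        exact Or.inl ⟨Ne.symm hwa, hw.symm⟩
    · by_cases hwb : w = b
      · rwa [hwb]
      · apply hA3 b hbA
        rw [sup_adj]
        exact Or.inl ⟨Ne.symm hwb, hw.symm⟩
  have hdis : Disjoint (univ.filter (fun w => κ w = κ a)) (univ.filter (fun w => κ w = κ b)) := by
    rw [Finset.disjoint_left]
    intro w hw hw'
    rw [mem_filter] at hw hw'
    exact hκ (hw.2.symm.trans hw'.2)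
  have h1 := card_le_card hsub
  rw [card_union_of_disjoint hdis] at h1
  have h2 := hb a b hκ
  omega

open Classical in
theorem structure_of_edgeMax {n : ℕ} {G : SimpleGraph (Fin n)} (h : EdgeMax PC G) :
    ∃ κ : Fin n → G.ConnectedComponent, G = cl κ ∧
      (∀ v, (univ.filter (fun w => κ w = κ v)).card ≤ 3) ∧
      (∀ a b, κ a ≠ κ b → 4 ≤ (univ.filter (fun w => κ w = κ a)).card +
        (univ.filter (fun w => κ w = κ b)).card) := by
  obtain ⟨κ, hκ⟩ : ∃ κ : Fin n → G.ConnectedComponent, κ = G.connectedComponentMk := ⟨_, rfl⟩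
  have hκe : ∀ a b, κ a = κ b ↔ G.Reachable a b := by
    intro a b
    rw [hκ]
    exact ConnectedComponent.eq
  have hadj : ∀ a b, G.Adj a b → κ a = κ b := fun a b hab => (hκe a b).2 hab.reachable
  have hs : ∀ v, (univ.filter (fun w => κ w = κ v)).card ≤ 3 := by
    intro v
    obtain ⟨A, hA1, hA2, hA3⟩ := exists_closed h.1 v
    refine (card_le_card ?_).trans hA1
    intro w hw
    rw [mem_filter, hκe] at hw
    exact reach_closed hA3 hA2 hw.2.symm
  have hcl : ∀ a b, a ≠ b → κ a = κ b → G.Adj a b := by
    intro a b hab hk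
    by_contra hcon
    apply h.2 a b hab hcon
    apply free_of_small κ _ hs
    intro x y hxy
    rw [sup_adj, edge_adj] at hxy
    rcases hxy with hxy | ⟨⟨rfl, rfl⟩ | ⟨rfl, rfl⟩, _⟩
    · exact hadj _ _ hxy
    · exact hk
    · exact hk.symm
  refine ⟨κ, ?_, hs, ?_⟩
  · ext a b
    constructor
    · intro hab
      exact ⟨hab.ne, hadj _ _ hab⟩
    · rintro ⟨h1, h2⟩
      exact hcl a b h1 h2
  · intro a b hab
    by_contra hcon
    push Not at hcon
    have hne : a ≠ b := fun hh => hab (by rw [hh])
    have hnadj : ¬ G.Adj a b := fun hh => hab (hadj _ _ hh)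
    apply h.2 a b hne hnadj
    apply free_of_small (fun w => if κ w = κ b then κ a else κ w)
    · intro x y hxy
      rw [sup_adj, edge_adj] at hxy
      rcases hxy with hxy | ⟨⟨rfl, rfl⟩ | ⟨rfl, rfl⟩, _⟩
      · rw [hadj _ _ hxy]
      · simp [hab]
      · simp [hab]
    · intro v
      by_cases hv : κ v = κ a ∨ κ v = κ b
      · have hval : (if κ v = κ b then κ a else κ v) = κ a := by
          rcases hv with hv | hv
          · rw [hv]; simp
          · rw [if_pos hv]
        rw [hval]
        have hsub : univ.filter (fun w => (if κ w = κ b then κ a else κ w) = κ a) ⊆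
            (univ.filter (fun w => κ w = κ a)) ∪ (univ.filter (fun w => κ w = κ b)) := by
          intro w hw
          rw [mem_filter] at hw
          rw [mem_union, mem_filter, mem_filter]
          by_cases hwb : κ w = κ b
          · exact Or.inr ⟨mem_univ _, hwb⟩
          · rw [if_neg hwb] at hw
            exact Or.inl hw
        have h1 := card_le_card hsub
        have h2 := card_union_le (univ.filter (fun w => κ w = κ a))
          (univ.filter (fun w => κ w = κ b))
        omega
      · push Not at hv
        rw [if_neg hv.2]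
        refine (card_le_card ?_).trans (hs v)
        intro w hw
        rw [mem_filter] at hw ⊢
        by_cases hwb : κ w = κ b
        · rw [if_pos hwb] at hw
          exact absurd hw.2.symm hv.1
        · rw [if_neg hwb] at hw
          exact hw

open Classical in
/-- twice the number of edges of a union of cliques. -/
theorem two_mul_edges {n : ℕ} {ι : Type} (κ : Fin n → ι) :
    2 * (cl κ).edgeSet.ncard = ∑ v, ((univ.filter (fun w => κ w = κ v)).card - 1) := by
  have h1 := (cl κ).sum_degrees_eq_twice_card_edges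
  have h2 : (cl κ).edgeSet.ncard = (cl κ).edgeFinset.card := by
    rw [Set.ncard_eq_toFinset_card', SimpleGraph.edgeFinset]
  rw [h2, ← h1]
  apply sum_congr rfl
  intro v _
  have h3 : (cl κ).neighborFinset v = (univ.filter (fun w => κ w = κ v)).erase v := by
    ext w
    rw [mem_neighborFinset, mem_erase, mem_filter]
    constructor
    · rintro ⟨a, b⟩
      exact ⟨a.symm, mem_univ _, b.symm⟩
    · rintro ⟨a, _, b⟩
      exact ⟨a.symm, b.symm⟩
  rw [← card_neighborFinset_eq_degree, h3, card_erase_of_mem (by simp)]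

open Classical in
/-- the number of vertices in fibres of size `s` is divisible by `s`. -/
theorem dvd_card {n : ℕ} {ι : Type} (κ : Fin n → ι) (s : ℕ) :
    s ∣ (univ.filter (fun v => (univ.filter (fun w => κ w = κ v)).card = s)).card := by
  obtain ⟨A, hA⟩ : ∃ A, A = univ.filter
    (fun v => (univ.filter (fun w => κ w = κ v)).card = s) := ⟨_, rfl⟩
  rw [← hA]
  rw [card_eq_sum_card_image κ A]
  apply dvd_sum
  intro b hb
  obtain ⟨v, hv, rfl⟩ := mem_image.1 hb
  have h1 : A.filter (fun w => κ w = κ v) = univ.filter (fun w => κ w = κ v) := by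
    ext w
    rw [mem_filter, mem_filter]
    constructor
    · rintro ⟨_, h⟩
      exact ⟨mem_univ _, h⟩
    · rintro ⟨_, h⟩
      refine ⟨?_, h⟩
      rw [hA, mem_filter] at hv ⊢
      refine ⟨mem_univ _, ?_⟩
      rw [h]
      exact hv.2
  rw [h1]
  rw [hA, mem_filter] at hv
  rw [hv.2]

/-- the edge numbers. -/
theorem E_subset (n : ℕ) : E PC n ⊆ {e | 2 * e % 3 = n % 3 ∧ n ≤ 2 * e ∧ e ≤ n} ∪ {n - 1} := by
  classical
  rintro e ⟨G, hG, rfl⟩
  obtain ⟨κ, hGκ, hs, hb⟩ := structure_of_edgeMax hG
  have h2e : 2 * G.edgeSet.ncard = ∑ v, ((univ.filter (fun w => κ w = κ v)).card - 1) := by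
    conv_lhs => rw [hGκ]
    exact two_mul_edges κ
  have hpos : ∀ v, 1 ≤ (univ.filter (fun w => κ w = κ v)).card := by
    intro v
    exact Finset.card_pos.2 ⟨v, by simp⟩
  by_cases h1 : ∃ v, (univ.filter (fun w => κ w = κ v)).card = 1
  · -- one isolated vertex, all other components triangles
    right
    obtain ⟨v, hv⟩ := h1
    have hall : ∀ w, w ≠ v → (univ.filter (fun x => κ x = κ w)).card = 3 := by
      intro w hwv
      have hne : κ v ≠ κ w := by
        intro heq
        obtain ⟨a, ha⟩ := card_eq_one.1 hv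
        have m1 : v ∈ univ.filter (fun x => κ x = κ v) := by simp
        have m2 : w ∈ univ.filter (fun x => κ x = κ v) := by simp [heq]
        rw [ha, mem_singleton] at m1 m2
        exact hwv (m2.trans m1.symm)
      have h3 := hb v w hne
      have h4 := hs w
      omega
    have hsum : ∑ w, ((univ.filter (fun x => κ x = κ w)).card - 1) = (n - 1) * 2 := by
      rw [← sum_erase_add _ _ (mem_univ v), hv]
      rw [sum_congr rfl (fun w hw => by rw [hall w (ne_of_mem_erase hw)])]
      rw [sum_const, card_erase_of_mem (mem_univ v), card_univ, Fintype.card_fin]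
      simp
    rw [hsum] at h2e
    simp only [Set.mem_singleton_iff]
    omega
  · left
    push Not at h1
    have h23 : ∀ v, (univ.filter (fun w => κ w = κ v)).card - 1 =
        1 + if (univ.filter (fun w => κ w = κ v)).card = 3 then 1 else 0 := by
      intro v
      have a1 := hpos v
      have a2 := h1 v
      have a3 := hs v
      split_ifs with h3
      · omega
      · omega
    have hsum : ∑ v, ((univ.filter (fun w => κ w = κ v)).card - 1) =
        n + (univ.filter (fun v => (univ.filter (fun w => κ w = κ v)).card = 3)).card := by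
      rw [sum_congr rfl (fun v _ => h23 v), sum_add_distrib, sum_boole]
      simp
    obtain ⟨k, hk⟩ := dvd_card κ 3
    have hle : (univ.filter (fun v => (univ.filter (fun w => κ w = κ v)).card = 3)).card ≤ n := by
      refine (card_le_univ _).trans ?_
      simp
    rw [hsum, hk] at h2e
    rw [hk] at hle
    show 2 * G.edgeSet.ncard % 3 = n % 3 ∧ n ≤ 2 * G.edgeSet.ncard ∧ G.edgeSet.ncard ≤ n
    omega

theorem ncard_E (n : ℕ) : (E PC n).ncard ≤ n / 6 + 4 := by
  have h1 := Set.ncard_le_ncard (E_subset n) (by
    apply Set.Finite.union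
    · exact (Set.finite_Iic n).subset (fun e he => he.2.2)
    · exact Set.finite_singleton _)
  refine h1.trans ?_
  refine (Set.ncard_union_le _ _).trans ?_
  rw [Set.ncard_singleton]
  have h2 : {e | 2 * e % 3 = n % 3 ∧ n ≤ 2 * e ∧ e ≤ n}.ncard ≤
      ((Finset.Icc (n / 6) (n / 3) : Finset ℕ) : Set ℕ).ncard := by
    apply Set.ncard_le_ncard_of_injOn (fun e => e / 3)
    · rintro e ⟨h3, h4, h5⟩
      rw [Finset.coe_Icc]
      show n / 6 ≤ e / 3 ∧ e / 3 ≤ n / 3
      omega
    · rintro e ⟨h3, h4, h5⟩ e' ⟨h3', h4', h5'⟩ hee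
      simp only at hee
      omega
  rw [Set.ncard_coe_finset, Nat.card_Icc] at h2
  omega

theorem two_mul_edges_ge {n : ℕ} {ι : Type} [DecidableEq ι] (κ : Fin n → ι) (g : ℕ → ℕ)
    (hg : ∀ v : Fin n, g v ≤ (univ.filter (fun w => κ w = κ v)).card - 1) :
    ∑ i ∈ range n, g i ≤ 2 * (cl κ).edgeSet.ncard := by
  have h1 := two_mul_edges κ
  rw [h1, ← Fin.sum_univ_eq_sum_range]
  apply sum_le_sum
  intro v _
  refine (hg v).trans (le_of_eq ?_)
  congr!

theorem two_mul_edges_le {n : ℕ} {ι : Type} [DecidableEq ι] (κ : Fin n → ι) (g : ℕ → ℕ)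
    (hg : ∀ v : Fin n, (univ.filter (fun w => κ w = κ v)).card - 1 ≤ g v) :
    2 * (cl κ).edgeSet.ncard ≤ ∑ i ∈ range n, g i := by
  have h1 := two_mul_edges κ
  rw [h1, ← Fin.sum_univ_eq_sum_range]
  apply sum_le_sum
  intro v _
  refine (le_of_eq ?_).trans (hg v)
  congr!

/-- the number of elements of `Fin n` in an interval. -/
theorem card_interval {n a b : ℕ} (hb : b ≤ n) (P : Fin n → Prop) [DecidablePred P]
    (hP : ∀ w : Fin n, P w ↔ a ≤ w.val ∧ w.val < b) : (univ.filter P).card = b - a := by
  rw [← Nat.card_Ico a b]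
  apply card_nbij (fun w => w.val)
  · intro w hw
    rw [mem_coe, mem_filter] at hw
    rw [mem_coe, Finset.mem_Ico]
    exact (hP w).1 hw.2
  · intro x _ y _ hxy
    exact Fin.ext hxy
  · intro x hx
    rw [mem_coe, Finset.mem_Ico] at hx
    refine ⟨⟨x, by omega⟩, ?_, rfl⟩
    rw [mem_coe, mem_filter]
    exact ⟨mem_univ _, (hP _).2 hx⟩

/-- many edges -/
theorem exists_large (n : ℕ) : ∃ e ∈ E PC n, n ≤ e + 2 := by
  have hcard : ∀ v : Fin n, (univ.filter (fun w : Fin n => w.val / 3 = v.val / 3)).card =
      min (3 * (v.val / 3) + 3) n - 3 * (v.val / 3) := by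
    intro v
    apply card_interval (min_le_right _ _)
    intro w
    have := w.2
    rw [lt_min_iff]
    omega
  refine ⟨_, ⟨cl (fun v : Fin n => v.val / 3), ?_, rfl⟩, ?_⟩
  · apply edgeMax_cl
    · intro v
      rw [hcard v]
      have := v.2
      omega
    · intro a b hab
      rw [hcard a, hcard b]
      have h1 := a.2
      have h2 := b.2
      omega
  · have h1 := two_mul_edges_ge (fun v : Fin n => v.val / 3)
      (fun i => if i < 3 * (n / 3) then 2 else 0) (by
        intro v
        rw [hcard v]
        have := v.2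
        split_ifs with h
        · omega
        · omega)
    rw [← sum_filter, sum_const] at h1
    have h2 : (filter (fun i => i < 3 * (n / 3)) (range n)).card = 3 * (n / 3) := by
      have : filter (fun i => i < 3 * (n / 3)) (range n) = range (3 * (n / 3)) := by
        ext i
        rw [mem_filter, mem_range, mem_range]
        omega
      rw [this, card_range]
    rw [h2, smul_eq_mul] at h1
    omega

/-- few edges -/
theorem exists_small (n : ℕ) (hn : 3 ≤ n) : ∃ e ∈ E PC n, 2 * e ≤ n + 3 := by
  rcases Nat.even_or_odd n with he | ho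
  · obtain ⟨m, hm⟩ := he
    have hcard : ∀ v : Fin n, (univ.filter (fun w : Fin n => w.val / 2 = v.val / 2)).card =
        2 * (v.val / 2) + 2 - 2 * (v.val / 2) := by
      intro v
      have := v.2
      apply card_interval (by omega)
      intro w
      omega
    refine ⟨_, ⟨cl (fun v : Fin n => v.val / 2), ?_, rfl⟩, ?_⟩
    · apply edgeMax_cl
      · intro v
        rw [hcard v]
        omega
      · intro a b hab
        rw [hcard a, hcard b]
        omega
    · have h1 := two_mul_edges_le (fun v : Fin n => v.val / 2) (fun _ => 1) (by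
          intro v
          rw [hcard v]
          omega)
      rw [sum_const, card_range] at h1
      simp only [smul_eq_mul, mul_one] at h1
      omega
  · obtain ⟨m, hm⟩ := ho
    have hcard : ∀ v : Fin n, (univ.filter (fun w : Fin n => (w.val - 1) / 2 = (v.val - 1) / 2)).card =
        if v.val < 3 then 3 else 2 := by
      intro v
      have := v.2
      split_ifs with h
      · rw [card_interval (a := 0) (b := 3) hn]
        intro w
        omega
      · rw [card_interval (a := 2 * ((v.val - 1) / 2) + 1) (b := 2 * ((v.val - 1) / 2) + 3)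
          (by omega)]
        · omega
        · intro w
          omega
    refine ⟨_, ⟨cl (fun v : Fin n => (v.val - 1) / 2), ?_, rfl⟩, ?_⟩
    · apply edgeMax_cl
      · intro v
        rw [hcard v]
        split_ifs <;> omega
      · intro a b hab
        rw [hcard a, hcard b]
        split_ifs <;> omega
    · have h1 := two_mul_edges_le (fun v : Fin n => (v.val - 1) / 2)
        (fun i => 1 + if i < 3 then 1 else 0) (by
          intro v
          rw [hcard v]
          split_ifs <;> omega)
      rw [sum_add_distrib, sum_boole] at h1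
      have h2 : (filter (fun i => i < 3) (range n)).card ≤ 3 := by
        have : filter (fun i => i < 3) (range n) ⊆ range 3 := by
          intro i hi
          rw [mem_filter] at hi
          rw [mem_range]
          exact hi.2
        exact (card_le_card this).trans (by simp)
      simp only [sum_const, card_range, smul_eq_mul, mul_one, Nat.cast_id] at h1
      omega

theorem gap_ge (n : ℕ) (hn : 3 ≤ n) : ((n : ℝ) - 7) / 2 ≤ gap PC n := by
  obtain ⟨e, he, h1⟩ := exists_large n
  obtain ⟨f, hf, h2⟩ := exists_small n hn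
  have hbdd : BddAbove (E PC n) := by
    refine ⟨n, ?_⟩
    intro x hx
    rcases E_subset n hx with h | h
    · exact h.2.2
    · rw [Set.mem_singleton_iff] at h
      omega
  have h3 : e ≤ sSup (E PC n) := le_csSup hbdd he
  have h4 : sInf (E PC n) ≤ f := Nat.sInf_le hf
  have h5 : (n : ℝ) ≤ (sSup (E PC n) : ℕ) + 2 := by
    have : n ≤ sSup (E PC n) + 2 := by omega
    exact_mod_cast this
  have h6 : 2 * ((sInf (E PC n) : ℕ) : ℝ) ≤ n + 3 := by
    have : 2 * sInf (E PC n) ≤ n + 3 := by omega
    exact_mod_cast this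
  unfold gap
  linarith

theorem ncard_E_real (n : ℕ) : ((E PC n).ncard : ℝ) ≤ n / 6 + 4 := by
  have h1 := ncard_E n
  have h2 : 6 * (E PC n).ncard ≤ n + 24 := by omega
  have h3 : 6 * ((E PC n).ncard : ℝ) ≤ n + 24 := by exact_mod_cast h2
  linarith

/-- Both questions have a negative answer. For the suitable set `PC` consisting of the four-vertex
path and the claw, the difference `gap n - |E n|` is unbounded, and, although the class of `PC`-free
graphs is linearly impure, `|E n| / gap n` does not tend to `1`. -/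
theorem result : Suitable PC ∧
    (∀ C : ℝ, ∃ n : ℕ, 1 ≤ n ∧ C < gap PC n - (E PC n).ncard) ∧
    LinearlyImpure PC ∧
    ¬ Tendsto (fun n : ℕ => ((E PC n).ncard : ℝ) / gap PC n) atTop (𝓝 1) := by
  refine ⟨suitable_PC, ?_, ?_, ?_⟩
  · intro C
    obtain ⟨m, hm⟩ := exists_nat_gt (3 * C)
    refine ⟨m + 30, by omega, ?_⟩
    have h1 := gap_ge (m + 30) (by omega)
    have h2 := ncard_E_real (m + 30)
    push_cast at h1 h2
    linarith
  · refine ⟨1 / 4, by norm_num, ?_⟩
    filter_upwards [eventually_ge_atTop 30] with n hn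
    have h1 := gap_ge n (by omega)
    have hn' : (30 : ℝ) ≤ n := by exact_mod_cast hn
    rw [le_div_iff₀ (by linarith)]
    linarith
  · intro ht
    have h1 : ∀ᶠ n : ℕ in atTop, ((E PC n).ncard : ℝ) / gap PC n ≤ 1 / 2 := by
      filter_upwards [eventually_ge_atTop 100] with n hn
      have h1 := gap_ge n (by omega)
      have h2 := ncard_E_real n
      have hn' : (100 : ℝ) ≤ n := by exact_mod_cast hn
      rw [div_le_iff₀ (by linarith)]
      linarith
    have h2 := le_of_tendsto ht h1
    norm_num at h2

end Pool.Agent.Results.MP_4dddeb_co.EdgeNumberGaps
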